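import Mathlib

/-!
# Factorials which are products of two consecutive integers: near orthogonality

If `a (a+1) ∣ b (b+1)` with quotient `Q`, the four numbers
`gcd a b, gcd a (b+1), gcd (a+1) b, gcd (a+1) (b+1)` satisfy
`A D ≤ Q B C` and `B C ≤ 5 Q A D`.
-/

namespace Pool.Agent.FactCons

open Finset

theorem pair_ineq {a b Q : ℕ} (ha : 0 < a) (hab : a < b)
    (hQ : b * (b + 1) = Q * (a * (a + 1))) :
    Nat.gcd a b * Nat.gcd (a + 1) (b + 1) ≤ Q * (Nat.gcd a (b + 1) * Nat.gcd (a + 1) b) ∧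
    Nat.gcd a (b + 1) * Nat.gcd (a + 1) b ≤
      5 * Q * (Nat.gcd a b * Nat.gcd (a + 1) (b + 1)) := by
  have hb : 0 < b := lt_trans ha hab
  have cop_a : Nat.Coprime a (a + 1) := by simp
  have cop_b : Nat.Coprime b (b + 1) := by simp
  have hAB : Nat.gcd a b * Nat.gcd a (b + 1) = a := by
    rw [← Nat.Coprime.gcd_mul a cop_b]
    exact Nat.gcd_eq_left ⟨Q * (a + 1), by rw [hQ]; ring⟩
  have hCD : Nat.gcd (a + 1) b * Nat.gcd (a + 1) (b + 1) = a + 1 := by
    rw [← Nat.Coprime.gcd_mul (a + 1) cop_b]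
    exact Nat.gcd_eq_left ⟨Q * a, by rw [hQ]; ring⟩
  have hAC : Nat.gcd a b * Nat.gcd (a + 1) b ∣ b := by
    apply Nat.Coprime.mul_dvd_of_dvd_of_dvd
    · exact Nat.Coprime.coprime_dvd_left (Nat.gcd_dvd_left a b)
        (Nat.Coprime.coprime_dvd_right (Nat.gcd_dvd_left (a + 1) b) cop_a)
    · exact Nat.gcd_dvd_right a b
    · exact Nat.gcd_dvd_right (a + 1) b
  have hBD : Nat.gcd a (b + 1) * Nat.gcd (a + 1) (b + 1) ∣ b + 1 := by
    apply Nat.Coprime.mul_dvd_of_dvd_of_dvd
    · exact Nat.Coprime.coprime_dvd_left (Nat.gcd_dvd_left a (b + 1))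
        (Nat.Coprime.coprime_dvd_right (Nat.gcd_dvd_left (a + 1) (b + 1)) cop_a)
    · exact Nat.gcd_dvd_right a (b + 1)
    · exact Nat.gcd_dvd_right (a + 1) (b + 1)
  have hApos : 0 < Nat.gcd a b := Nat.gcd_pos_of_pos_left _ ha
  have hBpos : 0 < Nat.gcd a (b + 1) := Nat.gcd_pos_of_pos_left _ ha
  have hCpos : 0 < Nat.gcd (a + 1) b := Nat.gcd_pos_of_pos_left _ (Nat.succ_pos a)
  have hDpos : 0 < Nat.gcd (a + 1) (b + 1) := Nat.gcd_pos_of_pos_left _ (Nat.succ_pos a)
  generalize Nat.gcd a b = A at *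
  generalize Nat.gcd a (b + 1) = B at *
  generalize Nat.gcd (a + 1) b = C at *
  generalize Nat.gcd (a + 1) (b + 1) = D at *
  obtain ⟨u, hu⟩ := hAC
  obtain ⟨v, hv⟩ := hBD
  have hupos : 0 < u := by
    rcases Nat.eq_zero_or_pos u with h | h
    · subst h; simp at hu; omega
    · exact h
  have hvpos : 0 < v := by
    rcases Nat.eq_zero_or_pos v with h | h
    · subst h; simp at hv
    · exact h
  have hABCD : 0 < A * B * (C * D) := by positivity
  have hQuv : Q = u * v := by
    have h1 : Q * (A * B * (C * D)) = u * v * (A * B * (C * D)) := by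
      calc Q * (A * B * (C * D)) = Q * (a * (a + 1)) := by rw [hAB, hCD]
        _ = b * (b + 1) := hQ.symm
        _ = (A * C * u) * (B * D * v) := by rw [← hu, ← hv]
        _ = u * v * (A * B * (C * D)) := by ring
    exact Nat.eq_of_mul_eq_mul_right hABCD h1
  -- now integers
  have e1 : (C : ℤ) * D = A * B + 1 := by exact_mod_cast (by rw [hCD, hAB] : C * D = A * B + 1)
  have e2 : (B : ℤ) * D * v = A * C * u + 1 := by
    exact_mod_cast (by rw [← hv, ← hu] : B * D * v = A * C * u + 1)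
  have pA : (1 : ℤ) ≤ A := by exact_mod_cast hApos
  have pB : (1 : ℤ) ≤ B := by exact_mod_cast hBpos
  have pC : (1 : ℤ) ≤ C := by exact_mod_cast hCpos
  have pD : (1 : ℤ) ≤ D := by exact_mod_cast hDpos
  have pu : (1 : ℤ) ≤ u := by exact_mod_cast hupos
  have pv : (1 : ℤ) ≤ v := by exact_mod_cast hvpos
  have hQ1 : 1 < u * v := by
    rw [← hQuv]
    by_contra hcon
    have : Q = 0 ∨ Q = 1 := by omega
    rcases this with h | h
    · rw [h] at hQ; simp at hQ; omega
    · rw [h] at hQ; nlinarith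
  have hQ1' : (1 : ℤ) < u * v := by exact_mod_cast hQ1
  obtain ⟨r, hr⟩ : ∃ r : ℤ, r = (D : ℤ) ^ 2 * v - A ^ 2 * u := ⟨_, rfl⟩
  obtain ⟨t, ht⟩ : ∃ t : ℤ, t = (C : ℤ) ^ 2 * u - B ^ 2 * v := ⟨_, rfl⟩
  have f1 : (C : ℤ) * r = A + D * v := by
    have : (C : ℤ) * r = D * v * (C * D) - A * (A * C * u) := by rw [hr]; ring
    rw [this, e1]
    have : (A : ℤ) * (A * C * u) = A * (B * D * v - 1) := by rw [e2]; ring
    rw [this]; ring
  have f2 : (B : ℤ) * r = D + A * u := by
    have : (B : ℤ) * r = D * (B * D * v) - A * u * (A * B) := by rw [hr]; ring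
    rw [this, e2]
    have : (A : ℤ) * u * (A * B) = A * u * (C * D - 1) := by rw [e1]; ring
    rw [this]; ring
  have f3 : (A : ℤ) * t = B * v - C := by
    have : (A : ℤ) * t = C * (A * C * u) - (A * B) * (B * v) := by rw [ht]; ring
    rw [this]
    have h1 : (C : ℤ) * (A * C * u) = C * (B * D * v - 1) := by rw [e2]; ring
    have h2 : ((A : ℤ) * B) * (B * v) = (C * D - 1) * (B * v) := by rw [e1]; ring
    rw [h1, h2]; ring
  have f4 : (D : ℤ) * t = C * u - B := by
    have : (D : ℤ) * t = (C * D) * (C * u) - B * (B * D * v) := by rw [ht]; ring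
    rw [this, e1, e2]; ring
  have hr1 : 1 ≤ r := by
    have : 0 < (C : ℤ) * r := by rw [f1]; positivity
    by_contra hcon
    have h0 : (C : ℤ) * r ≤ 0 := mul_nonpos_of_nonneg_of_nonpos (by omega) (by omega)
    linarith
  have ht1 : 1 ≤ t := by
    by_contra hcon
    have ht0 : t ≤ 0 := by omega
    have g1 : (B : ℤ) * v ≤ C := by
      have : (A : ℤ) * t ≤ 0 := mul_nonpos_of_nonneg_of_nonpos (by omega) ht0
      linarith
    have g2 : (C : ℤ) * u ≤ B := by
      have : (D : ℤ) * t ≤ 0 := mul_nonpos_of_nonneg_of_nonpos (by omega) ht0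
      linarith
    have g3 : (B : ℤ) * (u * v) ≤ B := by
      have : (B : ℤ) * v * u ≤ C * u := mul_le_mul_of_nonneg_right g1 (by omega)
      have e : (B : ℤ) * (u * v) = B * v * u := by ring
      linarith
    have g4 : (B : ℤ) * 1 < B * (u * v) := mul_lt_mul_of_pos_left hQ1' (by omega)
    linarith
  have k1 : (A : ℤ) ≤ B * v := by
    have : (A : ℤ) * 1 ≤ A * t := mul_le_mul_of_nonneg_left ht1 (by omega)
    linarith
  have k2 : (D : ℤ) ≤ C * u := by
    have : (D : ℤ) * 1 ≤ D * t := mul_le_mul_of_nonneg_left ht1 (by omega)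
    linarith
  have hAD : (A : ℤ) * D ≤ (u * v) * (B * C) := by
    calc (A : ℤ) * D ≤ (B * v) * (C * u) := by
          apply mul_le_mul k1 k2 (by omega) (by positivity)
      _ = _ := by ring
  have k3 : (A : ℤ) ≤ D * v := by
    by_contra hcon
    have hcon' : (D : ℤ) * v < A := by omega
    have h1 : (A : ℤ) ^ 2 * u < D ^ 2 * v := by omega
    have h2 : ((D : ℤ) * v) ^ 2 < A ^ 2 := by
      apply pow_lt_pow_left₀ hcon' (by positivity) (by norm_num)
    have h3 : (A : ℤ) ^ 2 * 1 ≤ A ^ 2 * u :=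
      mul_le_mul_of_nonneg_left pu (by positivity)
    have h4 : (D : ℤ) ^ 2 * v ≤ (D * v) ^ 2 := by
      have : (D : ℤ) ^ 2 * v * 1 ≤ D ^ 2 * v * v := by
        apply mul_le_mul_of_nonneg_left pv (by positivity)
      have e : ((D : ℤ) * v) ^ 2 = (D : ℤ) ^ 2 * v * v := by ring
      rw [e]
      linarith
    linarith
  have k4 : (A : ℤ) ^ 2 * u ≤ A * D * (u * v) := by
    have : (A : ℤ) * u * A ≤ A * u * (D * v) := by
      apply mul_le_mul_of_nonneg_left k3 (by positivity)
    calc (A : ℤ) ^ 2 * u = A * u * A := by ring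
      _ ≤ A * u * (D * v) := this
      _ = _ := by ring
  have k5 : (D : ℤ) ^ 2 * v ≤ A * D * (u * v) + r := by omega
  have k6 : (B : ℤ) * C * r ^ 2 ≤ A * D + 3 * (A * D * (u * v)) + r := by
    have : (B : ℤ) * C * r ^ 2 = (D + A * u) * (A + D * v) := by
      rw [← f1, ← f2]; ring
    rw [this]
    have : ((D : ℤ) + A * u) * (A + D * v) = A * D + D ^ 2 * v + A ^ 2 * u + A * D * (u * v) := by
      ring
    rw [this]; omega
  obtain ⟨X, hX⟩ : ∃ X : ℤ, X = (A : ℤ) * D + 3 * (A * D * (u * v)) := ⟨_, rfl⟩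
  obtain ⟨Y, hY⟩ : ∃ Y : ℤ, Y = (B : ℤ) * C := ⟨_, rfl⟩
  have hXpos : 0 ≤ X := by rw [hX]; positivity
  have k7 : Y ≤ X + 1 := by
    rw [← hX, ← hY] at k6
    by_contra hcon
    have hcon' : X + 2 ≤ Y := by omega
    have h1 : (X + 2) * r ^ 2 ≤ Y * r ^ 2 := by
      apply mul_le_mul_of_nonneg_right hcon' (by positivity)
    have h2 : r * 1 ≤ r * r := mul_le_mul_of_nonneg_left hr1 (by omega)
    have h4 : 1 ≤ r * r := by linarith
    have h3 : X * 1 ≤ X * (r * r) := mul_le_mul_of_nonneg_left h4 hXpos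
    have h5 : (X + 2) * r ^ 2 = X * (r * r) + 2 * (r * r) := by ring
    rw [h5] at h1
    linarith
  have hAD1 : (1 : ℤ) ≤ A * D := by
    have : (1 : ℤ) * 1 ≤ A * D := mul_le_mul pA pD (by norm_num) (by omega)
    linarith
  have k8 : (A : ℤ) * D ≤ A * D * (u * v) := by
    have : (A : ℤ) * D * 1 ≤ A * D * (u * v) :=
      mul_le_mul_of_nonneg_left hQ1'.le (by omega)
    linarith
  have hBC : (B : ℤ) * C ≤ 5 * (u * v) * (A * D) := by
    rw [hX, hY] at k7
    have : (5 : ℤ) * (u * v) * (A * D) = 5 * (A * D * (u * v)) := by ring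
    rw [this]
    omega
  subst hQuv
  constructor
  · exact_mod_cast hAD
  · exact_mod_cast hBC

/-- the side of the prime `p`: `1` if `p ∣ a`, else `-1` -/
noncomputable def sgn (a p : ℕ) : ℝ := if p ∣ a then 1 else -1

/-- the weight of the prime `p` in `R` -/
noncomputable def wt (R p : ℕ) : ℝ := (R.factorization p : ℝ) * Real.log p

/-- weighted correlation of the sides of `a` and `b` -/
noncomputable def IP (R a b : ℕ) : ℝ := ∑ p ∈ R.primeFactors, wt R p * (sgn a p * sgn b p)

theorem sgn_mul_self (a p : ℕ) : sgn a p * sgn a p = 1 := by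
  unfold sgn; split_ifs <;> norm_num

theorem abs_sgn (a p : ℕ) : |sgn a p| = 1 := by
  unfold sgn; split_ifs <;> norm_num

theorem wt_nonneg (R p : ℕ) : 0 ≤ wt R p := by
  unfold wt
  exact mul_nonneg (Nat.cast_nonneg _) (Real.log_natCast_nonneg p)

theorem wt_zero {R p : ℕ} (hp : p ∉ R.primeFactors) : wt R p = 0 := by
  unfold wt
  have : R.factorization p = 0 := by
    rw [← Nat.support_factorization] at hp
    exact Finsupp.notMem_support_iff.1 hp
  rw [this]; simp

theorem log_eq_sum {m : ℕ} {P : Finset ℕ} (hP : m.primeFactors ⊆ P) :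
    Real.log m = ∑ p ∈ P, wt m p := by
  rw [Real.log_nat_eq_sum_factorization, Finsupp.sum, Nat.support_factorization]
  apply Finset.sum_subset hP
  intro p _ hp
  exact wt_zero hp

theorem IP_comm (R a b : ℕ) : IP R a b = IP R b a := by
  unfold IP
  apply Finset.sum_congr rfl
  intro p _
  ring

theorem IP_self (R a : ℕ) : IP R a a = Real.log R := by
  rw [log_eq_sum (Finset.Subset.refl _)]
  unfold IP
  apply Finset.sum_congr rfl
  intro p _
  rw [sgn_mul_self, mul_one]

theorem wt_mono {R R' : ℕ} (hdvd : R ∣ R') (hR' : R' ≠ 0) (p : ℕ) : wt R p ≤ wt R' p := by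
  unfold wt
  apply mul_le_mul_of_nonneg_right _ (Real.log_natCast_nonneg p)
  have hR : R ≠ 0 := fun h => hR' (by rw [h] at hdvd; exact Nat.eq_zero_of_zero_dvd hdvd)
  exact_mod_cast (Nat.factorization_le_iff_dvd hR hR').2 hdvd p

theorem IP_change {R R' : ℕ} (hdvd : R ∣ R') (hR' : R' ≠ 0) (a b : ℕ) :
    |IP R' a b - IP R a b| ≤ Real.log R' - Real.log R := by
  have hsub : R.primeFactors ⊆ R'.primeFactors := Nat.primeFactors_mono hdvd hR'
  have h1 : IP R a b = ∑ p ∈ R'.primeFactors, wt R p * (sgn a p * sgn b p) := by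
    unfold IP
    apply Finset.sum_subset hsub
    intro p _ hp
    rw [wt_zero hp, zero_mul]
  rw [h1, log_eq_sum (m := R') (Finset.Subset.refl _), log_eq_sum hsub]
  unfold IP
  rw [← Finset.sum_sub_distrib, ← Finset.sum_sub_distrib]
  refine (Finset.abs_sum_le_sum_abs _ _).trans ?_
  apply Finset.sum_le_sum
  intro p _
  rw [← sub_mul, abs_mul, abs_mul, abs_sgn, abs_sgn, mul_one, mul_one,
    abs_of_nonneg (sub_nonneg.2 (wt_mono hdvd hR' p))]

theorem IP_eq {a b : ℕ} (ha : 0 < a) (hb : 0 < b) (hdvd : a * (a + 1) ∣ b * (b + 1)) :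
    IP (a * (a + 1)) a b = Real.log (Nat.gcd a b) + Real.log (Nat.gcd (a + 1) (b + 1))
      - Real.log (Nat.gcd a (b + 1)) - Real.log (Nat.gcd (a + 1) b) := by
  have hR : a * (a + 1) ≠ 0 := by positivity
  have hR' : b * (b + 1) ≠ 0 := by positivity
  have sub1 : ∀ {x y : ℕ}, x ∣ a * (a + 1) → (Nat.gcd x y).primeFactors ⊆
      (a * (a + 1)).primeFactors := fun {x y} hx =>
    Nat.primeFactors_mono ((Nat.gcd_dvd_left x y).trans hx) hR
  have da : a ∣ a * (a + 1) := dvd_mul_right _ _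
  have da1 : a + 1 ∣ a * (a + 1) := dvd_mul_left _ _
  rw [log_eq_sum (sub1 (y := b) da), log_eq_sum (sub1 (y := b + 1) da1),
    log_eq_sum (sub1 (y := b + 1) da), log_eq_sum (sub1 (y := b) da1)]
  unfold IP
  rw [← Finset.sum_add_distrib, ← Finset.sum_sub_distrib, ← Finset.sum_sub_distrib]
  apply Finset.sum_congr rfl
  intro p hp
  have hpp : p.Prime := Nat.prime_of_mem_primeFactors hp
  have hpR : p ∣ a * (a + 1) := Nat.dvd_of_mem_primeFactors hp
  have hpR' : p ∣ b * (b + 1) := hpR.trans hdvd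
  have copa : Nat.Coprime a (a + 1) := by simp
  have copb : Nat.Coprime b (b + 1) := by simp
  have fR : (a * (a + 1)).factorization p = a.factorization p + (a + 1).factorization p := by
    rw [Nat.factorization_mul ha.ne' (Nat.succ_ne_zero a)]; rfl
  have fR' : (b * (b + 1)).factorization p = b.factorization p + (b + 1).factorization p := by
    rw [Nat.factorization_mul hb.ne' (Nat.succ_ne_zero b)]; rfl
  have hle : (a * (a + 1)).factorization p ≤ (b * (b + 1)).factorization p :=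
    (Nat.factorization_le_iff_dvd hR hR').2 hdvd p
  have zero_of : ∀ x : ℕ, ¬ p ∣ x → x.factorization p = 0 := fun x hx =>
    Nat.factorization_eq_zero_of_not_dvd hx
  have gfac : ∀ x y : ℕ, x ≠ 0 → y ≠ 0 → (Nat.gcd x y).factorization p =
      min (x.factorization p) (y.factorization p) := by
    intro x y hx hy
    rw [Nat.factorization_gcd hx hy]; rfl
  unfold wt
  rw [gfac a b ha.ne' hb.ne', gfac (a + 1) (b + 1) (Nat.succ_ne_zero a) (Nat.succ_ne_zero b),
    gfac a (b + 1) ha.ne' (Nat.succ_ne_zero b), gfac (a + 1) b (Nat.succ_ne_zero a) hb.ne']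
  have not_both : ∀ x : ℕ, p ∣ x → ¬ p ∣ x + 1 := by
    intro x h1 h2
    have := (Nat.dvd_add_right h1).1 h2
    exact hpp.one_lt.ne' (Nat.dvd_one.1 this)
  unfold sgn
  by_cases h1 : p ∣ a
  · have h1' : ¬ p ∣ a + 1 := not_both a h1
    have z1 := zero_of _ h1'
    rw [z1] at fR
    by_cases h2 : p ∣ b
    · have h2' : ¬ p ∣ b + 1 := not_both b h2
      have z2 := zero_of _ h2'
      rw [z2] at fR'
      rw [if_pos h1, if_pos h2, z1, z2, fR]
      have : min (a.factorization p) (b.factorization p) = a.factorization p :=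
        min_eq_left (by omega)
      rw [this]; simp
    · have z2 := zero_of _ h2
      rw [z2] at fR'
      rw [if_pos h1, if_neg h2, z1, z2, fR]
      have : min (a.factorization p) ((b + 1).factorization p) = a.factorization p :=
        min_eq_left (by omega)
      rw [this]; simp
  · have z1 := zero_of _ h1
    rw [z1] at fR
    by_cases h2 : p ∣ b
    · have h2' : ¬ p ∣ b + 1 := not_both b h2
      have z2 := zero_of _ h2'
      rw [z2] at fR'
      rw [if_neg h1, if_pos h2, z1, z2, fR]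
      have : min ((a + 1).factorization p) (b.factorization p) = (a + 1).factorization p :=
        min_eq_left (by omega)
      rw [this]; simp
    · have z2 := zero_of _ h2
      rw [z2] at fR'
      rw [if_neg h1, if_neg h2, z1, z2, fR]
      have : min ((a + 1).factorization p) ((b + 1).factorization p) =
          (a + 1).factorization p := min_eq_left (by omega)
      rw [this]; simp

/-- near orthogonality in the weights of `a (a+1)` -/
theorem abs_IP_le {a b : ℕ} (ha : 0 < a) (hab : a < b) (hdvd : a * (a + 1) ∣ b * (b + 1)) :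
    |IP (a * (a + 1)) a b| ≤
      Real.log ((b * (b + 1) : ℕ) : ℝ) - Real.log ((a * (a + 1) : ℕ) : ℝ) + Real.log 5 := by
  have hb : 0 < b := lt_trans ha hab
  obtain ⟨Q, hQ0⟩ := hdvd
  have hQ : b * (b + 1) = Q * (a * (a + 1)) := by rw [hQ0]; ring
  have hdvd : a * (a + 1) ∣ b * (b + 1) := ⟨Q, hQ0⟩
  have hQpos : 0 < Q := by
    rcases Nat.eq_zero_or_pos Q with h | h
    · rw [h] at hQ; simp at hQ; omega
    · exact h
  obtain ⟨h1, h2⟩ := pair_ineq ha hab hQ
  rw [IP_eq ha hb hdvd]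
  have hApos : 0 < Nat.gcd a b := Nat.gcd_pos_of_pos_left _ ha
  have hBpos : 0 < Nat.gcd a (b + 1) := Nat.gcd_pos_of_pos_left _ ha
  have hCpos : 0 < Nat.gcd (a + 1) b := Nat.gcd_pos_of_pos_left _ (Nat.succ_pos a)
  have hDpos : 0 < Nat.gcd (a + 1) (b + 1) := Nat.gcd_pos_of_pos_left _ (Nat.succ_pos a)
  have hlogQ : Real.log ((b * (b + 1) : ℕ) : ℝ) = Real.log Q + Real.log ((a * (a + 1) : ℕ) : ℝ) := by
    rw [hQ]
    push_cast
    rw [Real.log_mul (by positivity) (by positivity)]
  rw [hlogQ]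
  generalize Nat.gcd a b = A at *
  generalize Nat.gcd a (b + 1) = B at *
  generalize Nat.gcd (a + 1) b = C at *
  generalize Nat.gcd (a + 1) (b + 1) = D at *
  have cA : (0 : ℝ) < A := by exact_mod_cast hApos
  have cB : (0 : ℝ) < B := by exact_mod_cast hBpos
  have cC : (0 : ℝ) < C := by exact_mod_cast hCpos
  have cD : (0 : ℝ) < D := by exact_mod_cast hDpos
  have cQ : (0 : ℝ) < Q := by exact_mod_cast hQpos
  have g1 : Real.log ((A : ℝ) * D) ≤ Real.log ((Q : ℝ) * (B * C)) := by
    apply Real.log_le_log (by positivity)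
    exact_mod_cast h1
  have g2 : Real.log ((B : ℝ) * C) ≤ Real.log (5 * (Q : ℝ) * (A * D)) := by
    apply Real.log_le_log (by positivity)
    exact_mod_cast h2
  rw [Real.log_mul cA.ne' cD.ne', Real.log_mul cQ.ne' (by positivity),
    Real.log_mul cB.ne' cC.ne'] at g1
  rw [Real.log_mul cB.ne' cC.ne', Real.log_mul (by positivity) (by positivity),
    Real.log_mul (by norm_num) cQ.ne', Real.log_mul cA.ne' cD.ne'] at g2
  have l5 : 0 ≤ Real.log 5 := Real.log_nonneg (by norm_num)
  rw [abs_le]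
  constructor <;> linarith

end Pool.Agent.FactCons
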