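import Pool.Agent.FactCons.Basic

/-!
# Counting the `n ≤ N` with `n! = a (a+1)`
-/

namespace Pool.Agent.FactCons

open Finset

/-- `n! = a (a+1)` with `a ≥ 1` -/
def Sol (n a : ℕ) : Prop := 0 < a ∧ n.factorial = a * (a + 1)

theorem Sol.two_le {n a : ℕ} (h : Sol n a) : 2 ≤ n := by
  obtain ⟨ha, hn⟩ := h
  by_contra hcon
  have : n = 0 ∨ n = 1 := by omega
  have h1 : n.factorial = 1 := by rcases this with h | h <;> simp [h]
  rw [h1] at hn
  nlinarith

theorem Sol.lt {n k a b : ℕ} (ha : Sol n a) (hb : Sol k b) (hnk : n < k) : a < b := by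
  have h1 : n.factorial < k.factorial :=
    (Nat.factorial_lt (by have := ha.two_le; omega)).2 hnk
  rw [ha.2, hb.2] at h1
  by_contra hcon
  have : b ≤ a := by omega
  nlinarith

theorem log_fact_mono {m n : ℕ} (h : m ≤ n) :
    Real.log (m.factorial : ℝ) ≤ Real.log (n.factorial : ℝ) := by
  apply Real.log_le_log
  · exact_mod_cast Nat.factorial_pos m
  · exact_mod_cast Nat.factorial_le h

theorem abs_IP_fact {m n k a b : ℕ} (hm : m ≤ n) (hnk : n < k) (ha : Sol n a) (hb : Sol k b) :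
    |IP m.factorial a b| ≤
      Real.log (k.factorial : ℝ) - Real.log (m.factorial : ℝ) + Real.log 5 := by
  have hd : a * (a + 1) ∣ b * (b + 1) := by
    rw [← ha.2, ← hb.2]; exact Nat.factorial_dvd_factorial hnk.le
  have h1 := abs_IP_le ha.1 (ha.lt hb hnk) hd
  rw [← ha.2, ← hb.2] at h1
  have h2 := IP_change (Nat.factorial_dvd_factorial hm) (Nat.factorial_ne_zero n) a b
  have h3 : IP m.factorial a b = IP n.factorial a b - (IP n.factorial a b - IP m.factorial a b) := by
    ring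
  rw [h3]
  refine (abs_sub _ _).trans ?_
  linarith

/-- the Gram inequality with the prime `2` -/
theorem gram {m M : ℕ} (hm2 : 2 ≤ m) (S : Finset ℕ) (f : ℕ → ℕ) (hS : ∀ n ∈ S, Sol n (f n))
    (hlo : ∀ n ∈ S, m ≤ n) (hhi : ∀ n ∈ S, n ≤ M) (hmM : m ≤ M) :
    (S.card : ℝ) * (wt m.factorial 2 -
      (Real.log (M.factorial : ℝ) - Real.log (m.factorial : ℝ) + Real.log 5)) ≤
      Real.log (m.factorial : ℝ) := by
  set E : ℝ := Real.log (M.factorial : ℝ) - Real.log (m.factorial : ℝ) + Real.log 5 with hE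
  have hE0 : 0 ≤ E := by
    have h1 := log_fact_mono hmM
    have h2 : 0 ≤ Real.log 5 := Real.log_nonneg (by norm_num)
    rw [hE]; linarith
  have hW0 : 0 ≤ Real.log (m.factorial : ℝ) := Real.log_natCast_nonneg _
  rcases Nat.eq_zero_or_pos S.card with hc | hc
  · rw [hc]; simpa using hW0
  have h2mem : 2 ∈ m.factorial.primeFactors := by
    rw [Nat.mem_primeFactors]
    exact ⟨Nat.prime_two, (Nat.Prime.dvd_factorial Nat.prime_two).2 hm2, Nat.factorial_ne_zero m⟩
  -- lower bound
  have hlow : wt m.factorial 2 * (S.card : ℝ) ^ 2 ≤ ∑ p ∈ m.factorial.primeFactors,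
      wt m.factorial p * (∑ n ∈ S, sgn (f n) 2 * sgn (f n) p) ^ 2 := by
    have h1 : wt m.factorial 2 * (S.card : ℝ) ^ 2 =
        wt m.factorial 2 * (∑ n ∈ S, sgn (f n) 2 * sgn (f n) 2) ^ 2 := by
      congr 2
      rw [Finset.sum_congr rfl (fun n _ => sgn_mul_self (f n) 2)]
      simp
    rw [h1]
    exact Finset.single_le_sum
      (f := fun p => wt m.factorial p * (∑ n ∈ S, sgn (f n) 2 * sgn (f n) p) ^ 2)
      (fun p _ => mul_nonneg (wt_nonneg _ _) (sq_nonneg _)) h2mem
  -- expansion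
  have hexp : ∑ p ∈ m.factorial.primeFactors,
      wt m.factorial p * (∑ n ∈ S, sgn (f n) 2 * sgn (f n) p) ^ 2 =
      ∑ n ∈ S, ∑ k ∈ S, (sgn (f n) 2 * sgn (f k) 2) * IP m.factorial (f n) (f k) := by
    have h1 : ∀ p ∈ m.factorial.primeFactors,
        wt m.factorial p * (∑ n ∈ S, sgn (f n) 2 * sgn (f n) p) ^ 2 =
        ∑ n ∈ S, ∑ k ∈ S, (sgn (f n) 2 * sgn (f k) 2) *
          (wt m.factorial p * (sgn (f n) p * sgn (f k) p)) := by
      intro p _
      rw [sq, Finset.sum_mul_sum, Finset.mul_sum]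
      apply Finset.sum_congr rfl
      intro n _
      rw [Finset.mul_sum]
      apply Finset.sum_congr rfl
      intro k _
      ring
    rw [Finset.sum_congr rfl h1, Finset.sum_comm]
    apply Finset.sum_congr rfl
    intro n _
    rw [Finset.sum_comm]
    apply Finset.sum_congr rfl
    intro k _
    rw [IP, Finset.mul_sum]
  -- upper bound
  have hup : ∑ n ∈ S, ∑ k ∈ S, (sgn (f n) 2 * sgn (f k) 2) * IP m.factorial (f n) (f k) ≤
      ∑ n ∈ S, ∑ k ∈ S, ((if n = k then Real.log (m.factorial : ℝ) else 0) + E) := by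
    apply Finset.sum_le_sum
    intro n hn
    apply Finset.sum_le_sum
    intro k hk
    refine (le_abs_self _).trans ?_
    rw [abs_mul, abs_mul, abs_sgn, abs_sgn, one_mul, one_mul]
    by_cases hnk : n = k
    · rw [if_pos hnk, hnk, IP_self, abs_of_nonneg hW0]
      linarith
    · rw [if_neg hnk, zero_add]
      rcases lt_or_gt_of_ne hnk with h | h
      · have h1 := abs_IP_fact (hlo n hn) h (hS n hn) (hS k hk)
        have h2 := log_fact_mono (hhi k hk)
        rw [hE]; linarith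
      · have h1 := abs_IP_fact (hlo k hk) h (hS k hk) (hS n hn)
        rw [IP_comm] at h1
        have h2 := log_fact_mono (hhi n hn)
        rw [hE]; linarith
  have hsum : ∑ n ∈ S, ∑ k ∈ S, ((if n = k then Real.log (m.factorial : ℝ) else 0) + E) =
      (S.card : ℝ) * Real.log (m.factorial : ℝ) + (S.card : ℝ) ^ 2 * E := by
    have h1 : ∀ n ∈ S, ∑ k ∈ S, ((if n = k then Real.log (m.factorial : ℝ) else 0) + E) =
        Real.log (m.factorial : ℝ) + (S.card : ℝ) * E := by
      intro n hn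
      rw [Finset.sum_add_distrib, Finset.sum_ite_eq, if_pos hn, Finset.sum_const, nsmul_eq_mul]
    rw [Finset.sum_congr rfl h1, Finset.sum_const, nsmul_eq_mul]
    ring
  rw [hexp] at hlow
  rw [hsum] at hup
  have hfin := hlow.trans hup
  have hcpos : (0 : ℝ) < S.card := by exact_mod_cast hc
  have : (S.card : ℝ) * ((S.card : ℝ) * (wt m.factorial 2 - E)) ≤
      (S.card : ℝ) * Real.log (m.factorial : ℝ) := by nlinarith
  exact le_of_mul_le_mul_left this hcpos

theorem eight_pow_dvd (q : ℕ) : 8 ^ q ∣ (4 * q).factorial := by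
  induction q with
  | zero => simp
  | succ q ih =>
    have h : (4 * (q + 1)).factorial =
        8 * ((q + 1) * (2 * q + 1) * (4 * q + 3) * (4 * q + 1)) * (4 * q).factorial := by
      have e : 4 * (q + 1) = (4 * q + 3) + 1 := by ring
      rw [e, Nat.factorial_succ, Nat.factorial_succ, Nat.factorial_succ, Nat.factorial_succ]
      ring
    rw [h, pow_succ, mul_comm (8 ^ q) 8]
    exact mul_dvd_mul (dvd_mul_right _ _) ih

theorem wt_two_ge (m : ℕ) : (3 / 4 : ℝ) * ((m : ℝ) - 3) * Real.log 2 ≤ wt m.factorial 2 := by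
  unfold wt
  have h1 : 2 ^ (3 * (m / 4)) ∣ m.factorial := by
    have : (2 : ℕ) ^ (3 * (m / 4)) = 8 ^ (m / 4) := by rw [pow_mul]; norm_num
    rw [this]
    exact (eight_pow_dvd (m / 4)).trans (Nat.factorial_dvd_factorial (Nat.mul_div_le m 4))
  have h2 : 3 * (m / 4) ≤ m.factorial.factorization 2 :=
    (Nat.Prime.pow_dvd_iff_le_factorization Nat.prime_two (Nat.factorial_ne_zero m)).1 h1
  have h3 : (m : ℝ) - 3 ≤ 4 * ((m / 4 : ℕ) : ℝ) := by
    have : m ≤ 4 * (m / 4) + 3 := by omega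
    have : (m : ℝ) ≤ 4 * ((m / 4 : ℕ) : ℝ) + 3 := by exact_mod_cast this
    linarith
  have h4 : (3 : ℝ) * ((m / 4 : ℕ) : ℝ) ≤ (m.factorial.factorization 2 : ℝ) := by
    exact_mod_cast h2
  have hl : (0 : ℝ) ≤ Real.log ((2 : ℕ) : ℝ) := Real.log_natCast_nonneg 2
  have h5 : (3 / 4 : ℝ) * ((m : ℝ) - 3) ≤ (m.factorial.factorization 2 : ℝ) := by linarith
  calc (3 / 4 : ℝ) * ((m : ℝ) - 3) * Real.log 2 = (3 / 4 : ℝ) * ((m : ℝ) - 3) * Real.log ((2 : ℕ) : ℝ) := by
        norm_num
    _ ≤ _ := mul_le_mul_of_nonneg_right h5 hl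

theorem log_fact_diff {m N : ℕ} (h : m ≤ N) (hN : 1 ≤ N) :
    Real.log (N.factorial : ℝ) - Real.log (m.factorial : ℝ) ≤ ((N : ℝ) - m) * Real.log N := by
  obtain ⟨d, rfl⟩ := Nat.exists_eq_add_of_le h
  have key : ∀ j : ℕ, j ≤ d → Real.log ((m + j).factorial : ℝ) - Real.log (m.factorial : ℝ) ≤
      (j : ℝ) * Real.log ((m + d : ℕ) : ℝ) := by
    intro j
    induction j with
    | zero => intro _; simp
    | succ j ih =>
      intro hj
      have h1 := ih (by omega)
      have e : (m + (j + 1)).factorial = (m + j + 1) * (m + j).factorial := by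
        rw [← add_assoc, Nat.factorial_succ]
      rw [e, Nat.cast_mul, Real.log_mul (by positivity)
        (by exact_mod_cast Nat.factorial_ne_zero _)]
      have h2 : Real.log ((m + j + 1 : ℕ) : ℝ) ≤ Real.log ((m + d : ℕ) : ℝ) := by
        apply Real.log_le_log (by positivity)
        exact_mod_cast (by omega : m + j + 1 ≤ m + d)
      push_cast at h2 ⊢
      push_cast at h1
      linarith
  have := key d le_rfl
  push_cast at this ⊢
  have e : ((m : ℝ) + d - m) = d := by ring
  rw [e]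
  exact this

theorem log_fact_le (m : ℕ) (hm : 1 ≤ m) : Real.log (m.factorial : ℝ) ≤ (m : ℝ) * Real.log m := by
  have := log_fact_diff (Nat.zero_le m) hm
  simpa using this

end Pool.Agent.FactCons
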