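import Pool.Agent.FactCons.Count

/-!
# The count `#{n ≤ N : n! = a (a+1)} ≤ 6 (log N)^3`
-/

namespace Pool.Agent.FactCons

open Finset

open Classical in
/-- the number of `n ≤ N` for which `n!` is a product of two consecutive positive integers -/
noncomputable def cnt (N : ℕ) : ℕ := ((Finset.Icc 1 N).filter (fun n => ∃ a, Sol n a)).card

theorem cnt_le (N : ℕ) : cnt N ≤ N - 1 := by
  classical
  unfold cnt
  have : (Finset.Icc 1 N).filter (fun n => ∃ a, Sol n a) ⊆ Finset.Icc 2 N := by
    intro n hn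
    rw [Finset.mem_filter, Finset.mem_Icc] at hn
    obtain ⟨⟨_, h2⟩, a, ha⟩ := hn
    rw [Finset.mem_Icc]
    exact ⟨ha.two_le, h2⟩
  refine (Finset.card_le_card this).trans ?_
  rw [Nat.card_Icc]
  omega

theorem cnt_window {M N : ℕ} (h1 : 1 ≤ M) (hMN : M < N) :
    ((cnt N : ℝ) - cnt M) * (wt (M + 1).factorial 2 -
      (Real.log (N.factorial : ℝ) - Real.log ((M + 1).factorial : ℝ) + Real.log 5)) ≤
      Real.log ((M + 1).factorial : ℝ) := by
  classical
  set S : Finset ℕ := (Finset.Icc (M + 1) N).filter (fun n => ∃ a, Sol n a) with hS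
  have hcard : (cnt N : ℝ) - cnt M = S.card := by
    have : cnt N = cnt M + S.card := by
      unfold cnt
      rw [hS, ← Finset.card_union_of_disjoint]
      · congr 1
        ext n
        simp only [Finset.mem_filter, Finset.mem_Icc, Finset.mem_union]
        constructor
        · rintro ⟨⟨a, b⟩, c⟩
          by_cases h : n ≤ M
          · exact Or.inl ⟨⟨a, h⟩, c⟩
          · exact Or.inr ⟨⟨by omega, b⟩, c⟩
        · rintro (⟨⟨a, b⟩, c⟩ | ⟨⟨a, b⟩, c⟩)
          · exact ⟨⟨a, by omega⟩, c⟩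
          · exact ⟨⟨by omega, b⟩, c⟩
      · rw [Finset.disjoint_left]
        intro n hn hn'
        simp only [Finset.mem_filter, Finset.mem_Icc] at hn hn'
        omega
    rw [this]; push_cast; ring
  rw [hcard]
  have hex : ∀ n : ℕ, ∃ a : ℕ, (∃ a', Sol n a') → Sol n a := by
    intro n
    by_cases h : ∃ a', Sol n a'
    · obtain ⟨a, ha⟩ := h
      exact ⟨a, fun _ => ha⟩
    · exact ⟨0, fun h' => absurd h' h⟩
  choose f hf using hex
  refine gram (m := M + 1) (M := N) (by omega) S f ?_ ?_ ?_ (by omega)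
  · intro n hn
    rw [hS, Finset.mem_filter] at hn
    exact hf n hn.2
  · intro n hn
    rw [hS, Finset.mem_filter, Finset.mem_Icc] at hn
    exact hn.1.1
  · intro n hn
    rw [hS, Finset.mem_filter, Finset.mem_Icc] at hn
    exact hn.1.2

theorem cnt_small {N : ℕ} (h2 : 2 ≤ N) (hN : N < 1024) : (cnt N : ℝ) ≤ 6 * (Real.log N) ^ 3 := by
  have h0 : (cnt N : ℝ) ≤ (N : ℝ) - 1 := by
    have := cnt_le N
    have h3 : cnt N + 1 ≤ N := by omega
    have : (cnt N : ℝ) + 1 ≤ N := by exact_mod_cast h3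
    linarith
  refine h0.trans ?_
  have l2 := Real.log_two_gt_d9
  have key : ∀ j : ℕ, 2 ^ j ≤ N → (j : ℝ) * 0.6931 ≤ Real.log N := by
    intro j hj
    have h1 : Real.log ((2 : ℝ) ^ j) ≤ Real.log N := by
      apply Real.log_le_log (by positivity)
      exact_mod_cast hj
    rw [Real.log_pow] at h1
    have h3 : (j : ℝ) * 0.6931 ≤ (j : ℝ) * Real.log 2 := by
      apply mul_le_mul_of_nonneg_left _ (Nat.cast_nonneg j)
      linarith
    linarith
  have cube : ∀ (c : ℝ), 0 ≤ c → c ≤ Real.log N → c ^ 3 ≤ (Real.log N) ^ 3 := by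
    intro c hc hcN
    exact pow_le_pow_left₀ hc hcN 3
  rcases Nat.lt_or_ge N 3 with h | h
  · have e : N = 2 := by omega
    have := cube _ (by norm_num) (key 1 (by omega))
    subst e
    norm_num at this ⊢
    linarith
  rcases Nat.lt_or_ge N 8 with h' | h'
  · have h1 : (1 : ℝ) ≤ Real.log N := by
      rw [Real.le_log_iff_exp_le (by positivity)]
      have := Real.exp_one_lt_d9
      have h3 : (3 : ℝ) ≤ N := by exact_mod_cast h
      linarith
    have := cube _ (by norm_num) h1
    have h3 : (N : ℝ) ≤ 7 := by exact_mod_cast (by omega : N ≤ 7)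
    norm_num at this ⊢
    linarith
  rcases Nat.lt_or_ge N 32 with h'' | h''
  · have := cube _ (by norm_num) (key 3 (by omega))
    have h3 : (N : ℝ) ≤ 32 := by exact_mod_cast (by omega : N ≤ 32)
    norm_num at this ⊢
    linarith
  rcases Nat.lt_or_ge N 128 with h3' | h3'
  · have := cube _ (by norm_num) (key 5 (by omega))
    have h3 : (N : ℝ) ≤ 128 := by exact_mod_cast (by omega : N ≤ 128)
    norm_num at this ⊢
    linarith
  rcases Nat.lt_or_ge N 512 with h4' | h4'
  · have := cube _ (by norm_num) (key 7 (by omega))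
    have h3 : (N : ℝ) ≤ 512 := by exact_mod_cast (by omega : N ≤ 512)
    norm_num at this ⊢
    linarith
  · have := cube _ (by norm_num) (key 9 (by omega))
    have h3 : (N : ℝ) ≤ 1024 := by exact_mod_cast (by omega : N ≤ 1024)
    norm_num at this ⊢
    linarith

theorem cnt_bound (N : ℕ) (h2 : 2 ≤ N) : (cnt N : ℝ) ≤ 6 * (Real.log N) ^ 3 := by
  induction N using Nat.strong_induction_on with
  | _ N ih =>
  rcases Nat.lt_or_ge N 1024 with hN | hN
  · exact cnt_small h2 hN
  have hNr : (1024 : ℝ) ≤ N := by exact_mod_cast hN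
  set L : ℝ := Real.log N with hL
  have l2 := Real.log_two_gt_d9
  have l2' := Real.log_two_lt_d9
  have l1024 : Real.log (1024 : ℝ) = 10 * Real.log 2 := by
    have : (1024 : ℝ) = 2 ^ 10 := by norm_num
    rw [this, Real.log_pow]; norm_num
  have hL1 : (6.931 : ℝ) ≤ L := by
    have : Real.log (1024 : ℝ) ≤ L := Real.log_le_log (by norm_num) hNr
    rw [l1024] at this
    linarith
  have hL2 : L ≤ 0.00677 * N := by
    have h1 : L = Real.log ((N : ℝ) / 1024) + Real.log (1024 : ℝ) := by
      rw [← Real.log_mul (by positivity) (by norm_num), hL,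
        div_mul_cancel₀ _ (by norm_num : (1024 : ℝ) ≠ 0)]
    have h3 : Real.log ((N : ℝ) / 1024) ≤ (N : ℝ) / 1024 - 1 :=
      Real.log_le_sub_one_of_pos (by positivity)
    rw [h1, l1024]
    linarith
  have hLpos : 0 < L := by linarith
  set K : ℕ := ⌊(N : ℝ) / (4 * L)⌋₊ with hK
  have hK1 : (K : ℝ) ≤ (N : ℝ) / (4 * L) := Nat.floor_le (by positivity)
  have hK2 : (N : ℝ) / (4 * L) < (K : ℝ) + 1 := Nat.lt_floor_add_one _
  have hK1' : (K : ℝ) * (4 * L) ≤ N := by
    rwa [le_div_iff₀ (by positivity)] at hK1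
  have hK2' : (N : ℝ) < ((K : ℝ) + 1) * (4 * L) := by
    rwa [div_lt_iff₀ (by positivity)] at hK2
  have hKsmall : (K : ℝ) * 27.72 ≤ N := by
    have : (K : ℝ) * 27.72 ≤ (K : ℝ) * (4 * L) := by
      apply mul_le_mul_of_nonneg_left _ (Nat.cast_nonneg K)
      linarith
    linarith
  have hKpos : 1 ≤ K := by
    by_contra hcon
    have h0 : K = 0 := by omega
    rw [h0] at hK2'
    push_cast at hK2'
    linarith
  have hKN : K < N := by
    have : (K : ℝ) < N := by
      have : (0 : ℝ) ≤ K := Nat.cast_nonneg K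
      linarith
    exact_mod_cast this
  obtain ⟨M, hM⟩ : ∃ M, M = N - K := ⟨_, rfl⟩
  have hMr : (M : ℝ) = (N : ℝ) - K := by rw [hM, Nat.cast_sub hKN.le]
  have hMN : M < N := by omega
  have hMlow : (0.96392 : ℝ) * N ≤ M := by rw [hMr]; linarith
  have hM2 : 2 ≤ M := by
    have : (2 : ℝ) ≤ M := by linarith
    exact_mod_cast this
  have hw := cnt_window (by omega : 1 ≤ M) hMN
  have hih := ih M hMN hM2
  -- the weights
  have hwt := wt_two_ge (M + 1)
  have hwt' : (0.5010 : ℝ) * N - 1.04 ≤ wt (M + 1).factorial 2 := by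
    refine le_trans ?_ hwt
    push_cast
    have h1 : (0 : ℝ) ≤ 3 / 4 * ((M : ℝ) + 1 - 3) := by linarith
    have h3 : 3 / 4 * ((M : ℝ) + 1 - 3) * 0.6931 ≤ 3 / 4 * ((M : ℝ) + 1 - 3) * Real.log 2 := by
      apply mul_le_mul_of_nonneg_left _ h1
      linarith
    linarith
  have hE : Real.log (N.factorial : ℝ) - Real.log ((M + 1).factorial : ℝ) + Real.log 5 ≤
      0.25 * N := by
    have h1 := log_fact_diff (m := M + 1) (N := N) (by omega) (by omega)
    have h5 : Real.log 5 ≤ 3 * Real.log 2 := by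
      have : (3 : ℝ) * Real.log 2 = Real.log 8 := by
        have : (8 : ℝ) = 2 ^ 3 := by norm_num
        rw [this, Real.log_pow]; norm_num
      rw [this]
      exact Real.log_le_log (by norm_num) (by norm_num)
    push_cast at h1
    have h3 : ((N : ℝ) - (M + 1)) * Real.log N = (K : ℝ) * L - L := by
      rw [hMr, ← hL]; ring
    rw [h3] at h1
    linarith
  have hlogm : Real.log ((M + 1).factorial : ℝ) ≤ (N : ℝ) * L := by
    have h1 := log_fact_le (M + 1) (by omega)
    have h3 : ((M + 1 : ℕ) : ℝ) ≤ N := by exact_mod_cast (by omega : M + 1 ≤ N)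
    have h4 : Real.log ((M + 1 : ℕ) : ℝ) ≤ L := by
      apply Real.log_le_log (by positivity) h3
    refine h1.trans ?_
    apply mul_le_mul h3 h4 (Real.log_natCast_nonneg _) (by positivity)
  have hgap : (0.2499 : ℝ) * N ≤ wt (M + 1).factorial 2 -
      (Real.log (N.factorial : ℝ) - Real.log ((M + 1).factorial : ℝ) + Real.log 5) := by
    linarith
  have hcnt0 : (0 : ℝ) ≤ (cnt N : ℝ) - cnt M := by
    classical
    have : cnt M ≤ cnt N := by
      unfold cnt
      apply Finset.card_le_card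
      apply Finset.filter_subset_filter
      intro x hx
      rw [Finset.mem_Icc] at hx ⊢
      omega
    have : (cnt M : ℝ) ≤ cnt N := by exact_mod_cast this
    linarith
  have hstep : (cnt N : ℝ) - cnt M ≤ 4.01 * L := by
    have h1 : ((cnt N : ℝ) - cnt M) * (0.2499 * N) ≤ (N : ℝ) * L :=
      (mul_le_mul_of_nonneg_left hgap hcnt0).trans (hw.trans hlogm)
    have h3 : (((cnt N : ℝ) - cnt M) * 0.2499) * N ≤ L * N := by linarith
    have h4 := le_of_mul_le_mul_right h3 (by linarith)
    linarith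
  -- the potential
  have hMpos : (0 : ℝ) < M := by linarith
  set b : ℝ := Real.log M with hb
  have hab1 : (K : ℝ) / N ≤ L - b := by
    have h1 : Real.log ((M : ℝ) / N) ≤ (M : ℝ) / N - 1 :=
      Real.log_le_sub_one_of_pos (by positivity)
    rw [Real.log_div (by positivity) (by positivity)] at h1
    have h3 : (M : ℝ) / N = 1 - (K : ℝ) / N := by
      rw [hMr]; field_simp
    rw [h3] at h1
    linarith
  have hab2 : 0.99 * L ≤ b := by
    have h1 : Real.log ((N : ℝ) / M) ≤ (N : ℝ) / M - 1 :=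
      Real.log_le_sub_one_of_pos (by positivity)
    rw [Real.log_div (by positivity) (by positivity)] at h1
    have h3 : (N : ℝ) / M ≤ 1.0375 := by
      rw [div_le_iff₀ hMpos]
      linarith
    linarith
  have hquad : (2.97 : ℝ) * L ^ 2 ≤ L ^ 2 + L * b + b ^ 2 := by
    have h1 : 0.99 * L * L ≤ L * b := by nlinarith
    have h3 : (0.99 * L) ^ 2 ≤ b ^ 2 := pow_le_pow_left₀ (by positivity) hab2 2
    nlinarith
  have hKN' : (0.2432 : ℝ) / L ≤ (K : ℝ) / N := by
    rw [div_le_div_iff₀ hLpos (by linarith)]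
    -- 0.2432 N ≤ K L
    nlinarith
  have hpsi : 6 * (L ^ 3 - b ^ 3) ≥ 4.01 * L := by
    have e : L ^ 3 - b ^ 3 = (L - b) * (L ^ 2 + L * b + b ^ 2) := by ring
    have h1 : (0.2432 : ℝ) / L * (2.97 * L ^ 2) ≤ (L - b) * (L ^ 2 + L * b + b ^ 2) := by
      apply mul_le_mul (hKN'.trans hab1) hquad (by positivity)
      have : (0 : ℝ) ≤ 0.2432 / L := by positivity
      linarith [hKN'.trans hab1]
    have h3 : (0.2432 : ℝ) / L * (2.97 * L ^ 2) = 0.722304 * L := by
      field_simp
      norm_num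
    rw [e]
    rw [h3] at h1
    linarith
  linarith

end Pool.Agent.FactCons
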